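import Mathlib

/-!
# The exact sequence of the 2-Selmer group: the algebra
-/

set_option autoImplicit false

namespace Pool.Agent.Helper28.AV

/-- `A` is a module with coboundary map `d : A → C`, `S` the group of the cocycles, `E` the group of the
invariants; the points of `A` are divisible by two. -/
theorem kum_card {A C E : Type} [AddCommGroup A] [AddCommGroup C] [AddCommGroup E] (d : A →+ C)
    (j : E →+ A) (hj : Function.Injective j) (hker : ∀ P : A, d P = 0 ↔ ∃ Q : E, j Q = P)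
    (hdiv : ∀ P : A, ∃ R : A, 2 • R = P) (S B S' B' : AddSubgroup C)
    (hB : ∀ f, f ∈ B ↔ ∃ P, f = d P) (hBS : B ≤ S) (hS' : ∀ f, f ∈ S' ↔ f ∈ S ∧ 2 • f = 0)
    (hB' : ∀ f, f ∈ B' ↔ ∃ P : A, 2 • P = 0 ∧ f = d P) :
    (Finite (S' ⧸ B'.addSubgroupOf S') → Finite {x : S ⧸ B.addSubgroupOf S // 2 • x = 0}) ∧
    (nsmulAddMonoidHom 2 : E →+ E).range.index *
      Nat.card {x : S ⧸ B.addSubgroupOf S // 2 • x = 0} = Nat.card (S' ⧸ B'.addSubgroupOf S') := by
  classical
  -- the map from the Selmer group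
  have hS'S : S' ≤ S := fun f hf => ((hS' f).1 hf).1
  have hle : B'.addSubgroupOf S' ≤ ((QuotientAddGroup.mk' (B.addSubgroupOf S)).comp
      (AddSubgroup.inclusion hS'S)).ker := by
    intro f hf
    rw [AddMonoidHom.mem_ker]
    show (QuotientAddGroup.mk (AddSubgroup.inclusion hS'S f) : S ⧸ B.addSubgroupOf S) = 0
    rw [QuotientAddGroup.eq_zero_iff, AddSubgroup.mem_addSubgroupOf]
    rw [AddSubgroup.mem_addSubgroupOf, hB'] at hf
    obtain ⟨P, -, hP⟩ := hf
    exact (hB _).2 ⟨P, hP⟩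
  set π : (S' ⧸ B'.addSubgroupOf S') →+ (S ⧸ B.addSubgroupOf S) :=
    QuotientAddGroup.lift _ _ hle with hπ
  have hπmk : ∀ f : S', π (QuotientAddGroup.mk f) =
      (QuotientAddGroup.mk (AddSubgroup.inclusion hS'S f) : S ⧸ B.addSubgroupOf S) := fun f => rfl
  -- its image
  have hrange : ∀ x : S ⧸ B.addSubgroupOf S, x ∈ π.range ↔ 2 • x = 0 := by
    intro x
    constructor
    · rintro ⟨y, rfl⟩
      obtain ⟨f, rfl⟩ := QuotientAddGroup.mk_surjective y
      rw [hπmk, ← QuotientAddGroup.mk_nsmul]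
      have : 2 • AddSubgroup.inclusion hS'S f = 0 := by
        apply Subtype.ext
        exact ((hS' _).1 f.2).2
      rw [this]
      rfl
    · intro hx
      obtain ⟨f, rfl⟩ := QuotientAddGroup.mk_surjective x
      rw [← QuotientAddGroup.mk_nsmul, QuotientAddGroup.eq_zero_iff,
        AddSubgroup.mem_addSubgroupOf, hB] at hx
      obtain ⟨P, hP⟩ := hx
      obtain ⟨R, hR⟩ := hdiv P
      have hdR : d R ∈ B := (hB _).2 ⟨R, rfl⟩
      have hmem : f.1 - d R ∈ S' := by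
        rw [hS']
        refine ⟨S.sub_mem f.2 (hBS hdR), ?_⟩
        rw [smul_sub, ← map_nsmul, hR, ← hP]
        exact sub_self _
      refine ⟨QuotientAddGroup.mk ⟨f.1 - d R, hmem⟩, ?_⟩
      rw [hπmk]
      refine QuotientAddGroup.eq.2 ?_
      rw [AddSubgroup.mem_addSubgroupOf]
      have : ((-(AddSubgroup.inclusion hS'S ⟨f.1 - d R, hmem⟩) + f : S) : C) = d R := by
        show -(f.1 - d R) + f.1 = d R
        abel
      rw [this]
      exact hdR
  -- the kernel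
  let K : AddSubgroup A := (d.comp (nsmulAddMonoidHom 2 : A →+ A)).ker
  have hK : ∀ R : A, R ∈ K ↔ d (2 • R) = 0 := fun R => Iff.rfl
  have hdS' : ∀ R : K, d R.1 ∈ S' := by
    intro R
    rw [hS']
    refine ⟨hBS ((hB _).2 ⟨R.1, rfl⟩), ?_⟩
    rw [← map_nsmul]
    exact (hK _).1 R.2
  let δ : K →+ S' := (d.comp K.subtype).codRestrict S' hdS'
  have hδ : ∀ R : K, ((δ R : S') : C) = d R.1 := fun R => rfl
  have hδker : ∀ R : K, π (QuotientAddGroup.mk (δ R)) = 0 := by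
    intro R
    rw [hπmk, QuotientAddGroup.eq_zero_iff, AddSubgroup.mem_addSubgroupOf]
    exact (hB _).2 ⟨R.1, rfl⟩
  let ψ₁ : K →+ π.ker := ((QuotientAddGroup.mk' (B'.addSubgroupOf S')).comp δ).codRestrict π.ker
    hδker
  have hψ₁s : Function.Surjective ψ₁ := by
    rintro ⟨y, hy⟩
    obtain ⟨f, rfl⟩ := QuotientAddGroup.mk_surjective y
    rw [AddMonoidHom.mem_ker, hπmk, QuotientAddGroup.eq_zero_iff,
      AddSubgroup.mem_addSubgroupOf] at hy
    obtain ⟨P, hP⟩ := (hB _).1 hy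
    have hP' : f.1 = d P := hP
    have hPK : P ∈ K := by
      rw [hK, map_nsmul, ← hP']
      exact ((hS' _).1 f.2).2
    refine ⟨⟨P, hPK⟩, ?_⟩
    apply Subtype.ext
    show (QuotientAddGroup.mk (δ ⟨P, hPK⟩) : S' ⧸ B'.addSubgroupOf S') = QuotientAddGroup.mk f
    congr 1
    apply Subtype.ext
    exact hP'.symm
  have hψ₁k : ∀ R : K, R ∈ ψ₁.ker ↔ ∃ T : A, 2 • T = 0 ∧ d R.1 = d T := by
    intro R
    have h1 : R ∈ ψ₁.ker ↔ (QuotientAddGroup.mk (δ R) : S' ⧸ B'.addSubgroupOf S') = 0 := by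
      rw [AddMonoidHom.mem_ker]
      exact Subtype.ext_iff
    rw [h1, QuotientAddGroup.eq_zero_iff, AddSubgroup.mem_addSubgroupOf, hδ, hB']
  -- the map to `E / 2 E`
  have hrj : ∀ R : K, (2 • R.1) ∈ j.range := by
    intro R
    obtain ⟨Q, hQ⟩ := (hker _).1 ((hK _).1 R.2)
    exact ⟨Q, hQ⟩
  let τ : K →+ j.range := ((nsmulAddMonoidHom 2 : A →+ A).comp K.subtype).codRestrict j.range hrj
  let e : E ≃+ j.range := AddMonoidHom.ofInjective hj
  let ψ₂ : K →+ E ⧸ (nsmulAddMonoidHom 2 : E →+ E).range :=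
    (QuotientAddGroup.mk' _).comp (e.symm.toAddMonoidHom.comp τ)
  have he : ∀ R : K, j (e.symm (τ R)) = 2 • R.1 := by
    intro R
    have h1 : (e (e.symm (τ R)) : A) = (τ R : A) := by rw [e.apply_symm_apply]
    exact h1
  have hψ₂s : Function.Surjective ψ₂ := by
    intro y
    obtain ⟨Q, rfl⟩ := QuotientAddGroup.mk_surjective y
    obtain ⟨R, hR⟩ := hdiv (j Q)
    have hRK : R ∈ K := by
      rw [hK, hR]
      exact (hker _).2 ⟨Q, rfl⟩
    refine ⟨⟨R, hRK⟩, ?_⟩
    show (QuotientAddGroup.mk (e.symm (τ ⟨R, hRK⟩)) : E ⧸ (nsmulAddMonoidHom 2 : E →+ E).range) =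
      QuotientAddGroup.mk Q
    congr 1
    apply hj
    rw [he]
    exact hR
  have hψ₂k : ∀ R : K, R ∈ ψ₂.ker ↔ ∃ T : A, 2 • T = 0 ∧ d R.1 = d T := by
    intro R
    have h1 : R ∈ ψ₂.ker ↔ e.symm (τ R) ∈ (nsmulAddMonoidHom 2 : E →+ E).range := by
      rw [AddMonoidHom.mem_ker]
      show (QuotientAddGroup.mk (e.symm (τ R)) : E ⧸ (nsmulAddMonoidHom 2 : E →+ E).range) = 0 ↔ _
      rw [QuotientAddGroup.eq_zero_iff]
    rw [h1]
    constructor
    · rintro ⟨Q, hQ⟩
      refine ⟨R.1 - j Q, ?_, ?_⟩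
      · rw [smul_sub, ← he, ← hQ]
        show j (2 • Q) - 2 • j Q = 0
        rw [map_nsmul, sub_self]
      · rw [map_sub, (hker (j Q)).2 ⟨Q, rfl⟩, sub_zero]
    · rintro ⟨T, hT, hRT⟩
      have h2 : d (R.1 - T) = 0 := by rw [map_sub, hRT, sub_self]
      obtain ⟨Q, hQ⟩ := (hker _).1 h2
      refine ⟨Q, ?_⟩
      apply hj
      rw [he]
      show j (2 • Q) = _
      rw [map_nsmul, hQ, smul_sub, hT, sub_zero]
  have hkk : ψ₁.ker = ψ₂.ker := by
    ext R
    rw [hψ₁k, hψ₂k]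
  have hcardker : Nat.card π.ker = (nsmulAddMonoidHom 2 : E →+ E).range.index := by
    have h1 := Nat.card_congr (QuotientAddGroup.quotientKerEquivOfSurjective ψ₁ hψ₁s).toEquiv
    have h2 := Nat.card_congr (QuotientAddGroup.quotientKerEquivOfSurjective ψ₂ hψ₂s).toEquiv
    rw [← h1, hkk, h2]
    rfl
  have hcardrange : Nat.card π.range = Nat.card {x : S ⧸ B.addSubgroupOf S // 2 • x = 0} :=
    Nat.card_congr (Equiv.subtypeEquivRight hrange)
  constructor
  · intro hfin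
    have h1 : Finite π.range := Finite.of_surjective π.rangeRestrict π.rangeRestrict_surjective
    exact Finite.of_equiv _ (Equiv.subtypeEquivRight hrange)
  · have h1 := AddSubgroup.card_eq_card_quotient_mul_card_addSubgroup π.ker
    have h2 := Nat.card_congr (QuotientAddGroup.quotientKerEquivRange π).toEquiv
    rw [h1, h2, hcardker, hcardrange, mul_comm]

end Pool.Agent.Helper28.AV
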