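import Pool.Agent.Helper91.AV.Def6
import Pool.Agent.Helper28.AV.KumAlg
import Pool.Graph.R_pool_sql_team_seeded_63374d34.N721.PP.GF

/-!
# The exact sequence of the 2-Selmer group
-/

set_option autoImplicit false
set_option linter.all false

open NumberField WeierstrassCurve
open scoped Classical

namespace Pool.Agent.Helper28.AV

open Pool.Agent.Helper91.AV (EPt idx2 ShaTwo Selmer selCoc cobTor S_KUM)
open Pool.Agent.TH841.SH.D (Pt Gal Coch IsCoc LocTriv cob act)
open Pool.Agent.TH841.NF.D (shaCoc IsShaCoc Sha)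

section

variable {F : Type} [Field F] [NumberField F]

instance galAC : IsGalois F (AlgebraicClosure F) where

/-- the map on points is functorial -/
theorem act_act' (W : WeierstrassCurve F) {L L' L'' : Type} [Field L] [Field L'] [Field L'']
    [Algebra F L] [Algebra F L'] [Algebra F L''] (φ : L →ₐ[F] L') (ψ : L' →ₐ[F] L'') (P : Pt W L) :
    act W ψ (act W φ P) = act W (ψ.comp φ) P :=
  Pool.Agent.TH115.GD.act_act W φ ψ P

/-- the coboundary map -/
noncomputable def dd (W : WeierstrassCurve F) : Pt W (AlgebraicClosure F) →+ Coch W where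
  toFun P := fun σ => act W σ.toAlgHom P - P
  map_zero' := by
    funext σ
    change act W σ.toAlgHom 0 - 0 = 0
    rw [map_zero, sub_zero]
  map_add' P Q := by
    funext σ
    change act W σ.toAlgHom (P + Q) - (P + Q) =
      (act W σ.toAlgHom P - P) + (act W σ.toAlgHom Q - Q)
    rw [map_add]
    abel

theorem dd_apply (W : WeierstrassCurve F) (P : Pt W (AlgebraicClosure F)) (σ : Gal F) :
    dd W P σ = act W σ.toAlgHom P - P := rfl

theorem pt_congr {W W' : WeierstrassCurve F} (h : W = W') :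
    Nonempty (W.toAffine.Point ≃+ W'.toAffine.Point) := by
  subst h
  exact ⟨AddEquiv.refl _⟩

theorem bc_id (W : WeierstrassCurve F) : W = W.baseChange F := by
  ext <;> simp [WeierstrassCurve.baseChange, WeierstrassCurve.map]

/-- coboundaries are locally trivial -/
theorem loc_dd (W : WeierstrassCurve F) (K : Type) [Field K] [Algebra F K]
    (P : Pt W (AlgebraicClosure F)) : LocTriv W K (dd W P) := by
  intro ι
  refine ⟨act W ι P, fun τ σ h => ?_⟩
  rw [dd_apply, map_sub, act_act', act_act']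
  have h1 : ι.comp σ.toAlgHom = (τ.toAlgHom.restrictScalars F).comp ι := by
    apply AlgHom.ext
    intro x
    exact (h x).symm
  rw [h1]

/-- coboundaries are continuous cocycles -/
theorem coc_dd (W : WeierstrassCurve F) (P : Pt W (AlgebraicClosure F)) : IsCoc W (dd W P) := by
  have h1 := Pool.Agent.TH115.GD.cob_isCoc (K := F) (F := F) (Ω := AlgebraicClosure F) W P
  exact ⟨h1.lc, h1.mul⟩

theorem cob_le (W : WeierstrassCurve F) : cob W ≤ shaCoc W := by
  rintro f ⟨P, hP⟩
  have h1 : f = dd W P := funext hP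
  rw [h1]
  exact ⟨coc_dd W P, fun v => loc_dd W _ P, fun v => loc_dd W _ P⟩

/-- the points are divisible by two -/
theorem div_two {a b : F} (hd : 4 * a ^ 3 + 27 * b ^ 2 ≠ 0)
    (P : Pt (⟨0, 0, 0, a, b⟩ : WeierstrassCurve F) (AlgebraicClosure F)) :
    ∃ R : Pt (⟨0, 0, 0, a, b⟩ : WeierstrassCurve F) (AlgebraicClosure F), 2 • R = P := by
  have hS : Pool.Agent.N721.PP.IsS
      ((⟨0, 0, 0, a, b⟩ : WeierstrassCurve F).baseChange (AlgebraicClosure F)).toAffine
      (algebraMap F (AlgebraicClosure F) a) (algebraMap F (AlgebraicClosure F) b) := by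
    constructor <;> simp [WeierstrassCurve.baseChange, WeierstrassCurve.map]
  have hd' : 4 * (algebraMap F (AlgebraicClosure F) a) ^ 3 +
      27 * (algebraMap F (AlgebraicClosure F) b) ^ 2 ≠ 0 := by
    intro h
    apply hd
    apply (algebraMap F (AlgebraicClosure F)).injective
    rw [map_zero, ← h]
    simp only [map_add, map_mul, map_pow, map_ofNat]
  haveI : CharZero (AlgebraicClosure F) := charZero_of_injective_algebraMap
    (algebraMap F (AlgebraicClosure F)).injective
  obtain ⟨R, hR⟩ := Pool.Agent.N721.PP.halve_sep hS (by norm_num) hd' P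
  refine ⟨R, ?_⟩
  rw [two_nsmul]
  exact hR

/-- **Module KUM.** -/
theorem kum : S_KUM := by
  intro F _ _ a b hd hfin
  set W : WeierstrassCurve F := ⟨0, 0, 0, a, b⟩ with hW
  obtain ⟨e⟩ := pt_congr (bc_id W)
  let i : F →ₐ[F] AlgebraicClosure F := Pool.Agent.TH115.GD.incl F F (AlgebraicClosure F)
  let j : EPt a b →+ Pt W (AlgebraicClosure F) :=
    (Pool.Agent.TH115.GD.act W i).comp e.toAddMonoidHom
  have hj : Function.Injective j :=
    (Pool.Agent.TH115.GD.act_inj W i).comp e.injective
  have hker : ∀ P : Pt W (AlgebraicClosure F), dd W P = 0 ↔ ∃ Q : EPt a b, j Q = P := by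
    intro P
    constructor
    · intro h
      obtain ⟨Q0, hQ0⟩ := Pool.Agent.TH115.GD.fixed_point (K := F) (F := F)
        (Ω := AlgebraicClosure F) W P (fun τ => by
          have h1 : dd W P τ = 0 := congrFun h τ
          rw [dd_apply, sub_eq_zero] at h1
          exact h1)
      refine ⟨e.symm Q0, ?_⟩
      show Pool.Agent.TH115.GD.act W i (e (e.symm Q0)) = P
      rw [e.apply_symm_apply]
      exact hQ0
    · rintro ⟨Q, rfl⟩
      funext σ
      rw [dd_apply]
      have h1 := Pool.Agent.TH115.GD.rs_act_incl (K := F) (F := F) (Ω := AlgebraicClosure F) W σ (e Q)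
      rw [sub_eq_zero.2]
      · rfl
      · exact h1
  have h := kum_card (dd W) j hj hker (div_two hd) (shaCoc W) (cob W) (selCoc W 2) (cobTor W 2)
    (fun f => ⟨fun ⟨P, hP⟩ => ⟨P, funext hP⟩, fun ⟨P, hP⟩ => ⟨P, fun σ => congrFun hP σ⟩⟩)
    (cob_le W) (fun f => Iff.rfl)
    (fun f => ⟨fun ⟨P, h1, h2⟩ => ⟨P, h1, funext h2⟩, fun ⟨P, h1, h2⟩ => ⟨P, h1, fun σ => congrFun h2 σ⟩⟩)
  exact ⟨h.1 hfin, h.2⟩

end

end Pool.Agent.Helper28.AV
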