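import Mathlib

/-!
# Balancing a family of positive numbers at the embeddings of a number field by a unit
-/

set_option autoImplicit false

namespace Pool.Agent.Helper28.AV

open NumberField NumberField.InfinitePlace NumberField.Units
  NumberField.Units.dirichletUnitTheorem Module
open scoped Classical

/-- module `S_UNIT` (copy of the statement in `Pool.Agent.Helper91.AV.Def3`) -/
def S_UNIT : Prop := ∀ (F : Type) [Field F] [NumberField F], ∃ c : ℝ, 0 < c ∧ ∀ t : (F →+* ℂ) → ℝ,
  (∀ σ, 0 < t σ) → (∀ σ, t (NumberField.ComplexEmbedding.conjugate σ) = t σ) →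
  ∃ u : (𝓞 F)ˣ, ∀ σ : F →+* ℂ, ‖σ ((u : 𝓞 F) : F)‖ * t σ ≤
    c * (∏ τ : F →+* ℂ, t τ) ^ ((1 : ℝ) / (Module.finrank ℚ F : ℝ))

/-- every vector of the logarithmic space is near to a unit -/
theorem near (F : Type) [Field F] [NumberField F] : ∃ R : ℝ, 0 ≤ R ∧ ∀ y : logSpace F,
    ∃ u : (𝓞 F)ˣ, ‖y - logEmbedding F (Additive.ofMul u)‖ ≤ R := by
  let b := (basisUnitLattice F).ofZLatticeBasis ℝ (unitLattice F)
  refine ⟨∑ i, ‖b i‖, Finset.sum_nonneg fun _ _ => norm_nonneg _, fun y => ?_⟩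
  have h1 : ((ZSpan.floor b y : logSpace F)) ∈ unitLattice F := by
    have h3 : Submodule.span ℤ (Set.range b) ≤ unitLattice F :=
      ((basisUnitLattice F).ofZLatticeBasis_span ℝ).le
    exact h3 (ZSpan.floor b y).2
  obtain ⟨u, -, hu⟩ := h1
  refine ⟨Additive.toMul u, ?_⟩
  have h4 := ZSpan.norm_fract_le (K := ℝ) b y
  rw [ZSpan.fract_apply, ← hu] at h4
  exact h4

/-- the product over the embeddings -/
theorem prod_emb (F : Type) [Field F] [NumberField F] (t : (F →+* ℂ) → ℝ)
    (ht : ∀ σ, t (NumberField.ComplexEmbedding.conjugate σ) = t σ) :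
    (∀ σ : F →+* ℂ, t (mk σ).embedding = t σ) ∧
    ∏ τ : F →+* ℂ, t τ = ∏ w : InfinitePlace F, t w.embedding ^ mult w := by
  have h1 : ∀ σ : F →+* ℂ, t (mk σ).embedding = t σ := by
    intro σ
    have h2 : mk (mk σ).embedding = mk σ := mk_embedding _
    rcases mk_eq_iff.1 h2 with h | h
    · exact congrArg t h
    · rw [← ht, h]
  refine ⟨h1, ?_⟩
  rw [← Finset.prod_fiberwise Finset.univ (fun φ : F →+* ℂ => InfinitePlace.mk φ)]
  refine Finset.prod_congr rfl fun w _ => ?_
  have h2 : ∀ τ ∈ Finset.univ.filter (fun φ : F →+* ℂ => mk φ = w), t τ = t w.embedding := by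
    intro τ hτ
    rw [Finset.mem_filter] at hτ
    rw [← h1 τ, hτ.2]
  rw [Finset.prod_congr rfl h2, Finset.prod_const, card_filter_mk_eq]

/-- **Module UNIT.** -/
theorem unit : S_UNIT := by
  intro F _ _
  obtain ⟨R, hR0, hR⟩ := near F
  set r : ℝ := (Fintype.card {w : InfinitePlace F // w ≠ w₀} : ℝ) with hr
  have hr0 : 0 ≤ r := Nat.cast_nonneg _
  refine ⟨Real.exp (R * (r + 1)), Real.exp_pos _, fun t ht hconj => ?_⟩
  obtain ⟨hemb, hprod⟩ := prod_emb F t hconj
  set d : ℝ := (finrank ℚ F : ℝ) with hd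
  have hd0 : 0 < d := by
    rw [hd]
    exact_mod_cast (finrank_pos : 0 < finrank ℚ F)
  set T : InfinitePlace F → ℝ := fun w => Real.log (t w.embedding) with hT
  set s : ℝ := (1 / d) * ∑ w : InfinitePlace F, mult w * T w with hs
  have hsum : ∑ w : InfinitePlace F, (mult w : ℝ) * (s - T w) = 0 := by
    have h1 : ∑ w : InfinitePlace F, (mult w : ℝ) = d := by
      rw [hd]
      exact_mod_cast sum_mult_eq
    have h2 : ∑ w : InfinitePlace F, (mult w : ℝ) * (s - T w) =
        (∑ w : InfinitePlace F, (mult w : ℝ)) * s - ∑ w : InfinitePlace F, mult w * T w := by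
      rw [Finset.sum_mul, ← Finset.sum_sub_distrib]
      exact Finset.sum_congr rfl fun w _ => by ring
    rw [h2, h1, hs]
    field_simp
    ring
  obtain ⟨u, hu⟩ := hR fun w => (mult w.1 : ℝ) * (s - T w.1)
  have hcoord : ∀ w : {w : InfinitePlace F // w ≠ w₀},
      |(mult w.1 : ℝ) * (s - T w.1) - mult w.1 * Real.log (w.1 (u : F))| ≤ R := by
    intro w
    have h1 := (norm_le_pi_norm ((fun w : {w : InfinitePlace F // w ≠ w₀} =>
      (mult w.1 : ℝ) * (s - T w.1)) - logEmbedding F (Additive.ofMul u)) w).trans hu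
    rw [Pi.sub_apply, logEmbedding_component, Real.norm_eq_abs] at h1
    exact h1
  have hmult : ∀ w : InfinitePlace F, (1 : ℝ) ≤ mult w := fun w => one_le_mult
  have hdiv : ∀ (w : InfinitePlace F) (B : ℝ), 0 ≤ B →
      (mult w : ℝ) * Real.log (w (u : F)) ≤ mult w * (s - T w) + B →
      Real.log (w (u : F)) + T w ≤ s + B := by
    intro w B hB h
    have h1 := hmult w
    by_contra hcon
    push Not at hcon
    nlinarith
  have hall : ∀ w : InfinitePlace F, Real.log (w (u : F)) + T w ≤ s + R * (r + 1) := by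
    intro w
    by_cases hw : w = w₀
    · subst hw
      refine hdiv _ _ (by positivity) ?_
      have h1 := sum_mult_mul_log u
      rw [Fintype.sum_eq_add_sum_subtype_ne _ w₀] at h1
      rw [Fintype.sum_eq_add_sum_subtype_ne _ w₀] at hsum
      have h2 : ∑ w : {w : InfinitePlace F // w ≠ w₀}, ((mult w.1 : ℝ) * (s - T w.1) -
          mult w.1 * Real.log (w.1 (u : F))) ≤ r * R := by
        refine (Finset.sum_le_card_nsmul _ _ R fun w _ => (le_abs_self _).trans (hcoord w)).trans ?_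
        rw [Finset.card_univ, nsmul_eq_mul]
      rw [Finset.sum_sub_distrib] at h2
      nlinarith
    · refine hdiv _ _ (by positivity) ?_
      have h1 := hcoord ⟨w, hw⟩
      rw [abs_le] at h1
      have h2 : R ≤ R * (r + 1) := by nlinarith
      linarith [h1.1]
  refine ⟨u, fun σ => ?_⟩
  have hpow : (∏ τ : F →+* ℂ, t τ) ^ ((1 : ℝ) / d) = Real.exp s := by
    have hpos : 0 < ∏ τ : F →+* ℂ, t τ := Finset.prod_pos fun τ _ => ht τ
    rw [Real.rpow_def_of_pos hpos, hprod, Real.log_prod fun w _ => (pow_pos (ht _) _).ne']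
    congr 1
    rw [hs, mul_comm]
    congr 1
    refine Finset.sum_congr rfl fun w _ => ?_
    rw [Real.log_pow]
  rw [hpow, ← Real.exp_add]
  have h1 := hall (mk σ)
  have h2 : (mk σ) (u : F) = ‖σ (u : F)‖ := apply σ _
  have h3 : 0 < ‖σ (u : F)‖ := by
    rw [← h2]
    exact Units.pos_at_place u (mk σ)
  rw [h2, hT] at h1
  simp only [hemb] at h1
  calc ‖σ (u : F)‖ * t σ = Real.exp (Real.log ‖σ (u : F)‖ + Real.log (t σ)) := by
        rw [Real.exp_add, Real.exp_log h3, Real.exp_log (ht σ)]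
    _ ≤ _ := Real.exp_le_exp.2 (by linarith)

end Pool.Agent.Helper28.AV
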